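import Pool.Agent.Work.MP_db9399_ow.Interface
import Pool.Agent.Work.MP_db9399_cg.Interface

/-!
# MP_db9399: block OWNX: `MP_db9399_cg.Stmt_OWN`, `Stmt_OWNP` from `MP_db9399_ow.Stmt_OWN`
-/

set_option autoImplicit false
set_option linter.unusedSectionVars false

namespace Pool.Agent.Work.MP_db9399_ow.helper23

open Finset Classical
open Pool.Agent.Work.MP_db9399_all (nb mis)
open Pool.Agent.Work.MP_db9399_en (tk)
open Pool.Agent.Work.MP_db9399_cg (Mat sx sp)

universe u

/-! ## Numbers -/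

theorem large (a ε : ℝ) (N C' x0 : ℕ) (ha : 0 < a) :
    ∃ d0 : ℕ, ∀ d : ℕ, d0 ≤ d → 100 ≤ d ∧ (x0 : ℝ) ≤ (d : ℝ) ^ (a / 40) ∧
      6 ≤ (d : ℝ) ^ (a / 40) ∧ Real.log d ≤ (d : ℝ) ^ (a / 40) ∧
      (2 : ℝ) ^ N ≤ (d : ℝ) ^ (1 / 2 : ℝ) ∧ 8192 ≤ (d : ℝ) ^ (a / 120) ∧
      (2 : ℝ) ^ C' + 2 ≤ (d : ℝ) ^ a ∧ 12 / ε ≤ (d : ℝ) ^ (a / 40) ∧ 48 / ε ≤ d := by
  have hT : ∀ s c : ℝ, 0 < s → ∀ᶠ d : ℕ in Filter.atTop, c ≤ (d : ℝ) ^ s := fun s c hs =>
    ((tendsto_rpow_atTop hs).comp tendsto_natCast_atTop_atTop).eventually_ge_atTop c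
  have hlog : ∀ᶠ d : ℕ in Filter.atTop, Real.log d ≤ (d : ℝ) ^ (a / 40) := by
    have h1 := (isLittleO_log_rpow_atTop (show 0 < a / 40 by positivity)).bound
      (show (0 : ℝ) < 1 by norm_num)
    have h2 := tendsto_natCast_atTop_atTop (R := ℝ) |>.eventually h1
    filter_upwards [h2] with d hd
    rw [one_mul, Real.norm_eq_abs, Real.norm_of_nonneg (by positivity)] at hd
    exact (le_abs_self _).trans hd
  have hall := (Filter.eventually_ge_atTop 100).and ((hT (a / 40) x0 (by positivity)).and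
    ((hT (a / 40) 6 (by positivity)).and (hlog.and ((hT (1 / 2) ((2 : ℝ) ^ N) (by norm_num)).and
    ((hT (a / 120) 8192 (by positivity)).and ((hT a ((2 : ℝ) ^ C' + 2) ha).and
    ((hT (a / 40) (12 / ε) (by positivity)).and (hT 1 (48 / ε) (by norm_num)))))))))
  obtain ⟨d0, hd0⟩ := Filter.eventually_atTop.1 hall
  refine ⟨d0, fun d hd => ?_⟩
  obtain ⟨h1, h2, h3, h4, h5, h6, h7, h8, h9⟩ := hd0 d hd
  rw [Real.rpow_one] at h9
  exact ⟨h1, h2, h3, h4, h5, h6, h7, h8, h9⟩

/-! ## The matchings -/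

section mats
variable {V : Type u} [Fintype V] {G S : SimpleGraph V} {d P r : ℕ} {a : ℝ} {N : Fin P → V → V}

theorem nb_sub (h : S ≤ G) (v : V) : nb S v ⊆ nb G v := by
  intro w hw
  simp only [nb, mem_filter, mem_univ, true_and] at hw ⊢
  exact h hw

theorem mem_nb {G : SimpleGraph V} {v w : V} : w ∈ nb G v ↔ G.Adj v w := by simp [nb]

theorem fixed_le (hM : Mat G S d P r a N) (v : V) :
    (univ.filter fun b => N b v = v).card ≤ 2 := by
  have h1 : (univ.filter fun b : Fin P => N b v = v).card +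
      (univ.filter fun b : Fin P => ¬ N b v = v).card = P := by
    rw [card_filter_add_card_filter_not]
    simp
  have h2 : (nb G v \ nb S v).card ≤ (univ.filter fun b : Fin P => ¬ N b v = v).card := by
    have h3 : nb G v \ nb S v ⊆ (univ.filter fun b : Fin P => ¬ N b v = v).image
        (fun b => N b v) := by
      intro w hw
      rw [mem_sdiff, mem_nb, mem_nb] at hw
      obtain ⟨b, hb⟩ := hM.co v w hw.1 hw.2
      rw [mem_image]
      refine ⟨b, ?_, hb⟩
      rw [mem_filter]
      refine ⟨mem_univ _, fun h => ?_⟩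
      rw [h] at hb
      rw [← hb] at hw
      exact G.loopless.irrefl v hw.1
    exact (card_le_card h3).trans card_image_le
  have h4 : (nb G v).card ≤ (nb G v \ nb S v).card + (nb S v).card := by
    have := card_sdiff_add_card_eq_card (nb_sub hM.sub v)
    omega
  have h5 : (nb G v).card = d := hM.reg v
  have h6 := hM.hi v
  have h7 := hM.hP
  omega

/-- the matching as a permutation -/
noncomputable def pm (hM : Mat G S d P r a N) (b : Fin P) : Equiv.Perm V :=
  Function.Involutive.toPerm (N b) (hM.NN b)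

theorem sum_pm (hM : Mat G S d P r a N) (b : Fin P) (f : V → ℝ) :
    ∑ v, f (N b v) = ∑ v, f v := Equiv.sum_comp (pm hM b) f

theorem N_inj (hM : Mat G S d P r a N) (b : Fin P) {v w : V} (h : N b v = N b w) : v = w := by
  rw [← hM.NN b v, h, hM.NN]

end mats

/-! ## The tests -/

section tests
variable {V : Type u} [Fintype V] {P : ℕ} {I : Type u}

/-- the signed tests and the tests for the average -/
noncomputable def gT (S : SimpleGraph V) (r : ℕ) (k : I → V → ℝ) (N : Fin P → V → V) :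
    I ⊕ V → Fin P → V → ℝ
  | Sum.inl i => fun b v => 1 / 3 * (if N b v = v then - k i v else k i (N b v))
  | Sum.inr y => fun b v => if N b v ≠ v ∧ N b v ∈ nb S y then 1 / ((r : ℝ) + 1) else 0

/-- their supports -/
noncomputable def sT (G S : SimpleGraph V) (k : I → V → ℝ) : I ⊕ V → Finset V
  | Sum.inl i => univ.filter (fun v => k i v ≠ 0) ∪
      (univ.filter fun v => k i v ≠ 0).biUnion (fun u => nb G u)
  | Sum.inr y => (nb S y).biUnion (fun u => nb G u)

/-- the squares -/
noncomputable def eT (d r : ℕ) (e : ℝ) : I ⊕ V → ℝ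
  | Sum.inl _ => e / 3
  | Sum.inr _ => (d : ℝ) / ((r : ℝ) + 1)

/-- the upper tests -/
noncomputable def qT (S : SimpleGraph V) (N : Fin P → V → V) :
    V ⊕ ((Fin P × V) ⊕ (Fin P × V)) → Finset (Fin P × V)
  | Sum.inl x => univ.filter (fun z => N z.1 x = z.2 ∧ z.2 ≠ x)
  | Sum.inr (Sum.inl p) => univ.filter (fun z => z.1 = p.1 ∧ N p.1 z.2 ≠ z.2 ∧ N p.1 z.2 ∈ nb S p.2)
  | Sum.inr (Sum.inr p) => univ.filter (fun z => z.1 = p.1 ∧ z.2 ∈ nb S p.2)

end tests

section lemmas
variable {V : Type u} [Fintype V] {G S : SimpleGraph V} {d P r : ℕ} {a : ℝ} {N : Fin P → V → V}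
  {I : Type u} [Fintype I] {k : I → V → ℝ}

theorem abs_gl (i : I) (b : Fin P) (v : V) :
    |gT S r k N (Sum.inl i) b v| = 1 / 3 * |k i (N b v)| := by
  simp only [gT]
  rw [abs_mul, abs_of_pos (by norm_num : (0 : ℝ) < 1 / 3)]
  split_ifs with h
  · rw [abs_neg, h]
  · rfl

theorem sq_gl (i : I) (b : Fin P) (v : V) :
    gT S r k N (Sum.inl i) b v ^ 2 = 1 / 9 * k i (N b v) ^ 2 := by
  simp only [gT]
  split_ifs with h
  · rw [h]
    ring
  · ring

theorem gr_nonneg (y : V) (b : Fin P) (v : V) : 0 ≤ gT (I := I) S r k N (Sum.inr y) b v := by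
  simp only [gT]
  split_ifs
  · positivity
  · exact le_rfl

theorem gr_le (y : V) (b : Fin P) (v : V) :
    gT (I := I) S r k N (Sum.inr y) b v ≤ 1 / ((r : ℝ) + 1) := by
  simp only [gT]
  split_ifs
  · exact le_rfl
  · positivity

theorem sum_gr_le (hM : Mat G S d P r a N) (y : V) (b : Fin P) :
    ∑ v, |gT (I := I) S r k N (Sum.inr y) b v| ≤ 1 := by
  have h1 : ∀ v, |gT (I := I) S r k N (Sum.inr y) b v| ≤
      (if N b v ∈ nb S y then 1 / ((r : ℝ) + 1) else 0) := by
    intro v
    rw [abs_of_nonneg (gr_nonneg y b v)]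
    simp only [gT]
    split_ifs with h2 h3 h3
    · exact le_rfl
    · exact absurd h2.2 h3
    · positivity
    · exact le_rfl
  calc ∑ v, |gT (I := I) S r k N (Sum.inr y) b v|
      ≤ ∑ v, (if N b v ∈ nb S y then 1 / ((r : ℝ) + 1) else 0) := sum_le_sum fun v _ => h1 v
    _ = ∑ v, (if v ∈ nb S y then 1 / ((r : ℝ) + 1) else 0) :=
        sum_pm hM b (fun v => if v ∈ nb S y then 1 / ((r : ℝ) + 1) else 0)
    _ = (nb S y).card * (1 / ((r : ℝ) + 1)) := by
        rw [← sum_filter, sum_const, nsmul_eq_mul]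
        congr 2
        simp
    _ ≤ 1 := by
        have h2 : ((nb S y).card : ℝ) ≤ (r : ℝ) + 1 := by exact_mod_cast hM.hi y
        rw [mul_one_div, div_le_one (by positivity)]
        exact h2

/-- the sum over the tokens -/
theorem tk_sum (hM : Mat G S d P r a N) (c : V → Fin P) (hc : ∀ v w, G.Adj v w → c v ≠ c w)
    (i : I) (b : Fin P) :
    ∑ x ∈ tk c N b, k i x = ∑ x ∈ univ.filter (fun x => N b x = x), k i x +
      3 * ∑ v ∈ univ.filter (fun v => c v = b), gT S r k N (Sum.inl i) b v := by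
  have h1 : 3 * ∑ v ∈ univ.filter (fun v => c v = b), gT S r k N (Sum.inl i) b v =
      ∑ v, (if c v = b then k i (N b v) else 0) -
        2 * ∑ v, (if c v = b ∧ N b v = v then k i v else 0) := by
    rw [sum_filter, mul_sum, mul_sum, ← sum_sub_distrib]
    apply sum_congr rfl
    intro v _
    simp only [gT]
    by_cases h2 : c v = b <;> by_cases h3 : N b v = v
    · simp only [h2, h3, if_true, and_self]
      ring
    · simp only [h2, h3, if_true, if_false, and_false]
      ring
    · simp [h2]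
    · simp [h2]
  have h4 : ∑ v, (if c v = b then k i (N b v) else 0) =
      ∑ v, (if c (N b v) = b then k i v else 0) := by
    rw [← sum_pm hM b (fun v => if c v = b then k i (N b v) else 0)]
    apply sum_congr rfl
    intro v _
    rw [hM.NN]
  rw [h1, h4, sum_filter]
  unfold tk
  rw [sum_filter, mul_sum, ← sum_sub_distrib, ← sum_add_distrib]
  apply sum_congr rfl
  intro v _
  by_cases h3 : N b v = v
  · rw [h3]
    by_cases h2 : c v = b
    · simp only [h2, ne_eq, not_true_eq_false, false_and, if_false, if_true, and_self]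
      ring
    · simp [h2]
  · have hadj := (hM.NG b v h3).1
    have hne := hc v (N b v) hadj
    by_cases h2 : c (N b v) = b
    · have h5 : c v ≠ b := by
        intro h
        exact hne (h.trans h2.symm)
      simp [h2, h3, h5]
    · simp [h2, h3]

theorem sum_gl (hM : Mat G S d P r a N) (i : I) (b : Fin P) :
    ∑ v, gT S r k N (Sum.inl i) b v =
      1 / 3 * (∑ v, k i v - 2 * ∑ v ∈ univ.filter (fun v => N b v = v), k i v) := by
  rw [← sum_pm hM b (k i), sum_filter, mul_sub, mul_sum, mul_sum, mul_sum, ← sum_sub_distrib]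
  apply sum_congr rfl
  intro v _
  simp only [gT]
  split_ifs with h
  · rw [h]
    ring
  · ring

theorem sum_fixed (hM : Mat G S d P r a N) (i : I) (h3 : ∑ x, |k i x| ≤ 3) :
    ∑ b : Fin P, ∑ v ∈ univ.filter (fun v => N b v = v), |k i v| ≤ 6 := by
  have h1 : ∑ b : Fin P, ∑ v ∈ univ.filter (fun v => N b v = v), |k i v| =
      ∑ v, ((univ.filter fun b : Fin P => N b v = v).card : ℝ) * |k i v| := by
    simp_rw [sum_filter]
    rw [sum_comm]
    apply sum_congr rfl
    intro v _
    rw [← sum_filter, sum_const, nsmul_eq_mul]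
  rw [h1]
  calc ∑ v, ((univ.filter fun b : Fin P => N b v = v).card : ℝ) * |k i v|
      ≤ ∑ v, 2 * |k i v| := by
        apply sum_le_sum
        intro v _
        apply mul_le_mul_of_nonneg_right _ (abs_nonneg _)
        exact_mod_cast fixed_le hM v
    _ = 2 * ∑ v, |k i v| := by rw [mul_sum]
    _ ≤ 6 := by linarith

/-- the tokens at a vertex: the fixed ones and the ones from own colours -/
theorem tk_card_le (hM : Mat G S d P r a N) (c : V → Fin P) (x : V) :
    (univ.filter fun b => x ∈ tk c N b).card ≤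
      2 + (univ.filter fun b => N b x ≠ x ∧ c (N b x) = b).card := by
  have h1 : (univ.filter fun b => x ∈ tk c N b) ⊆
      (univ.filter fun b => N b x = x) ∪ (univ.filter fun b => N b x ≠ x ∧ c (N b x) = b) := by
    intro b hb
    simp only [tk, mem_filter, mem_univ, true_and] at hb
    simp only [mem_union, mem_filter, mem_univ, true_and]
    by_cases h : N b x = x
    · exact Or.inl h
    · rcases hb.2 with h2 | h2
      · exact absurd h2 h
      · exact Or.inr ⟨h, h2⟩
  exact (card_le_card h1).trans ((card_union_le _ _).trans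
    (Nat.add_le_add_right (fixed_le hM x) _))

/-- the average -/
theorem sum_own (hM : Mat G S d P r a N) (c : V → Fin P) (y : V) :
    ∑ x ∈ nb S y, ((univ.filter fun b => N b x ≠ x ∧ c (N b x) = b).card : ℝ) =
      ((r : ℝ) + 1) * ∑ v, |gT (I := I) S r k N (Sum.inr y) (c v) v| := by
  have h1 : ∑ x ∈ nb S y, ((univ.filter fun b => N b x ≠ x ∧ c (N b x) = b).card : ℝ) =
      ∑ b : Fin P, ∑ x, (if x ∈ nb S y ∧ N b x ≠ x ∧ c (N b x) = b then (1 : ℝ) else 0) := by
    rw [sum_comm]
    have h2 : nb S y = univ.filter (fun x => x ∈ nb S y) := by simp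
    conv_lhs => rw [h2]
    rw [sum_filter]
    apply sum_congr rfl
    intro x _
    by_cases hx : x ∈ nb S y
    · simp [hx]
    · simp [hx]
  have h3 : ∀ b : Fin P,
      ∑ x, (if x ∈ nb S y ∧ N b x ≠ x ∧ c (N b x) = b then (1 : ℝ) else 0) =
      ∑ x, (if N b x ∈ nb S y ∧ N b x ≠ x ∧ c x = b then (1 : ℝ) else 0) := by
    intro b
    rw [← sum_pm hM b (fun x => if x ∈ nb S y ∧ N b x ≠ x ∧ c (N b x) = b then (1 : ℝ) else 0)]
    apply sum_congr rfl
    intro x _
    rw [hM.NN]
    have h4 : (x ≠ N b x) ↔ (N b x ≠ x) := ne_comm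
    simp only [h4]
  rw [h1]
  simp_rw [h3]
  rw [sum_comm, mul_sum]
  apply sum_congr rfl
  intro x _
  rw [abs_of_nonneg (gr_nonneg y _ _)]
  simp only [gT]
  rw [Finset.sum_eq_single (c x)]
  · by_cases h5 : N (c x) x ∈ nb S y ∧ N (c x) x ≠ x
    · rw [if_pos ⟨h5.1, h5.2, rfl⟩, if_pos ⟨h5.2, h5.1⟩]
      field_simp
    · rw [if_neg (fun h => h5 ⟨h.1, h.2.1⟩), if_neg (fun h => h5 ⟨h.2, h.1⟩), mul_zero]
  · intro b _ hb
    rw [if_neg (fun h => hb h.2.2.symm)]
  · intro h
    exact absurd (mem_univ _) h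

theorem card_bU {A : Finset V} {m n : ℝ} (f : V → Finset V) (hA : (A.card : ℝ) ≤ n) (_hn : 0 ≤ n)
    (hf : ∀ v, ((f v).card : ℝ) ≤ m) (hm : 0 ≤ m) : ((A.biUnion f).card : ℝ) ≤ n * m := by
  have h1 : ((A.biUnion f).card : ℝ) ≤ ∑ v ∈ A, ((f v).card : ℝ) := by
    exact_mod_cast card_biUnion_le
  calc ((A.biUnion f).card : ℝ) ≤ ∑ v ∈ A, ((f v).card : ℝ) := h1
    _ ≤ ∑ v ∈ A, m := sum_le_sum fun v _ => hf v
    _ = A.card * m := by rw [sum_const, nsmul_eq_mul]
    _ ≤ n * m := mul_le_mul_of_nonneg_right hA hm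

/-- supports and multiplicities of the tests -/
theorem sT_card (hM : Mat G S d P r a N) {w : ℝ} (hw : 0 ≤ w)
    (h1 : ∀ i, ((univ.filter fun x => k i x ≠ 0).card : ℝ) ≤ w) (hrd : (r : ℝ) + 1 ≤ d) (j : I ⊕ V) :
    ((sT G S k j).card : ℝ) ≤ w + w * d + d * d := by
  have hdeg : ∀ u, ((nb G u).card : ℝ) ≤ d := fun u => by exact_mod_cast (hM.reg u).le
  have hd0 : (0 : ℝ) ≤ d := by positivity
  rcases j with i | y
  · have h2 : ((sT G S k (Sum.inl i)).card : ℝ) ≤ (univ.filter fun x => k i x ≠ 0).card +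
        ((univ.filter fun v => k i v ≠ 0).biUnion (fun u => nb G u)).card := by
      simp only [sT]
      exact_mod_cast card_union_le _ _
    have h3 := card_bU (fun u => nb G u) (h1 i) hw hdeg hd0
    have h4 := h1 i
    have h5 : 0 ≤ (d : ℝ) * d := by positivity
    linarith
  · have h3 := card_bU (fun u => nb G u) (show ((nb S y).card : ℝ) ≤ d by
      have : ((nb S y).card : ℝ) ≤ (r : ℝ) + 1 := by exact_mod_cast hM.hi y
      linarith) hd0 hdeg hd0
    simp only [sT]
    have h5 : 0 ≤ w * d := by positivity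
    linarith

theorem sT_mul (hM : Mat G S d P r a N) {w : ℝ} (hw : 0 ≤ w)
    (h1 : ∀ x, ((univ.filter fun i => k i x ≠ 0).card : ℝ) ≤ w) (hrd : (r : ℝ) + 1 ≤ d) (v : V) :
    ((univ.filter fun j : I ⊕ V => v ∈ sT G S k j).card : ℝ) ≤ w + d * w + d * d := by
  have hdeg : ∀ u, ((nb G u).card : ℝ) ≤ d := fun u => by exact_mod_cast (hM.reg u).le
  have hdS : ∀ u, ((nb S u).card : ℝ) ≤ d := fun u => by
    have : ((nb S u).card : ℝ) ≤ (r : ℝ) + 1 := by exact_mod_cast hM.hi u
    linarith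
  have hd0 : (0 : ℝ) ≤ d := by positivity
  have h2 : (univ.filter fun j : I ⊕ V => v ∈ sT G S k j) ⊆
      ((univ.filter fun i => k i v ≠ 0) ∪ (nb G v).biUnion (fun u => univ.filter fun i => k i u ≠ 0)).disjSum
        ((nb G v).biUnion (fun u => nb S u)) := by
    intro j hj
    rw [mem_filter] at hj
    rcases j with i | y
    · simp only [sT, mem_union, mem_filter, mem_univ, true_and, mem_biUnion] at hj
      rw [inl_mem_disjSum, mem_union, mem_filter, mem_biUnion]
      rcases hj with h | ⟨u, hu, huv⟩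
      · exact Or.inl ⟨mem_univ _, h⟩
      · exact Or.inr ⟨u, mem_nb.2 (mem_nb.1 huv).symm, mem_filter.2 ⟨mem_univ _, hu⟩⟩
    · simp only [sT, mem_biUnion] at hj
      rw [inr_mem_disjSum, mem_biUnion]
      obtain ⟨_, u, hu, huv⟩ := hj
      exact ⟨u, mem_nb.2 (mem_nb.1 huv).symm, mem_nb.2 (mem_nb.1 hu).symm⟩
  have h3 : ((univ.filter fun j : I ⊕ V => v ∈ sT G S k j).card : ℝ) ≤
      (univ.filter fun i => k i v ≠ 0).card +
        ((nb G v).biUnion (fun u => univ.filter fun i => k i u ≠ 0)).card +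
        ((nb G v).biUnion (fun u => nb S u)).card := by
    have h4 := card_le_card h2
    rw [card_disjSum] at h4
    exact_mod_cast h4.trans (Nat.add_le_add_right (card_union_le _ _) _)
  have h5 : (((nb G v).biUnion (fun u => univ.filter fun i => k i u ≠ 0)).card : ℝ) ≤ d * w := by
    have h6 : (((nb G v).biUnion (fun u => univ.filter fun i => k i u ≠ 0)).card : ℝ) ≤
        ∑ u ∈ nb G v, ((univ.filter fun i => k i u ≠ 0).card : ℝ) := by
      exact_mod_cast card_biUnion_le
    calc _ ≤ _ := h6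
      _ ≤ ∑ u ∈ nb G v, w := sum_le_sum fun u _ => h1 u
      _ = (nb G v).card * w := by rw [sum_const, nsmul_eq_mul]
      _ ≤ d * w := mul_le_mul_of_nonneg_right (hdeg v) hw
  have h7 := card_bU (fun u => nb S u) (hdeg v) hd0 hdS hd0
  have h8 := h1 v
  linarith

theorem gT_sup (hM : Mat G S d P r a N) (j : I ⊕ V) (b : Fin P) (v : V) (h : v ∉ sT G S k j) :
    gT S r k N j b v = 0 := by
  rcases j with i | y
  · simp only [sT, mem_union, mem_filter, mem_univ, true_and, mem_biUnion, not_or, not_exists,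
      not_and, not_not] at h
    simp only [gT]
    split_ifs with h2
    · rw [h.1]
      ring
    · have h3 : k i (N b v) = 0 := by
        by_contra h4
        exact h.2 (N b v) h4 (mem_nb.2 (hM.NG b v h2).1.symm)
      rw [h3]
      ring
  · simp only [sT, mem_biUnion, not_exists, not_and] at h
    simp only [gT]
    rw [if_neg]
    rintro ⟨h2, h3⟩
    exact h (N b v) h3 (mem_nb.2 (hM.NG b v h2).1.symm)

theorem qT_card (hM : Mat G S d P r a N) (hrd : (r : ℝ) + 1 ≤ d)
    (q : V ⊕ ((Fin P × V) ⊕ (Fin P × V))) : ((qT S N q).card : ℝ) ≤ d + 1 := by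
  have hd0 : (0 : ℝ) ≤ d := by positivity
  have hdS : ∀ u, ((nb S u).card : ℝ) ≤ d + 1 := fun u => by
    have : ((nb S u).card : ℝ) ≤ (r : ℝ) + 1 := by exact_mod_cast hM.hi u
    linarith
  rcases q with x | p | p
  · have h1 : (qT S N (Sum.inl x)).card ≤ (univ : Finset (Fin P)).card := by
      apply card_le_card_of_injOn (fun z => z.1)
      · intro z _
        exact mem_coe.2 (mem_univ _)
      · intro z hz z' hz' he
        simp only [qT, mem_coe, mem_filter, mem_univ, true_and] at hz hz'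
        have he' : z.1 = z'.1 := he
        apply Prod.ext he'
        rw [← hz.1, ← hz'.1, he']
    rw [card_univ, Fintype.card_fin] at h1
    have h2 : P ≤ d + 1 := by
      have := hM.hP
      omega
    exact_mod_cast h1.trans h2
  · refine le_trans ?_ (hdS p.2)
    have h1 : (qT S N (Sum.inr (Sum.inl p))).card ≤ (nb S p.2).card := by
      apply card_le_card_of_injOn (fun z => N p.1 z.2)
      · intro z hz
        simp only [qT, mem_coe, mem_filter, mem_univ, true_and] at hz
        exact mem_coe.2 hz.2.2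
      · intro z hz z' hz' he
        simp only [qT, mem_coe, mem_filter, mem_univ, true_and] at hz hz'
        exact Prod.ext (hz.1.trans hz'.1.symm) (N_inj hM p.1 he)
    exact_mod_cast h1
  · refine le_trans ?_ (hdS p.2)
    have h1 : (qT S N (Sum.inr (Sum.inr p))).card ≤ (nb S p.2).card := by
      apply card_le_card_of_injOn (fun z => z.2)
      · intro z hz
        simp only [qT, mem_coe, mem_filter, mem_univ, true_and] at hz
        exact mem_coe.2 hz.2
      · intro z hz z' hz' he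
        simp only [qT, mem_coe, mem_filter, mem_univ, true_and] at hz hz'
        exact Prod.ext (hz.1.trans hz'.1.symm) he
    exact_mod_cast h1

theorem qT_mul (hM : Mat G S d P r a N) (hrd : (r : ℝ) + 1 ≤ d) (v : V) :
    ((univ.filter fun q : V ⊕ ((Fin P × V) ⊕ (Fin P × V)) => ∃ b, (b, v) ∈ qT S N q).card : ℝ) ≤
      d + 2 * ((d + 1) * d) := by
  have hd0 : (0 : ℝ) ≤ d := by positivity
  have hdS : ∀ u, ((nb S u).card : ℝ) ≤ d := fun u => by
    have : ((nb S u).card : ℝ) ≤ (r : ℝ) + 1 := by exact_mod_cast hM.hi u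
    linarith
  have hP : (P : ℝ) ≤ d + 1 := by
    have : P ≤ d + 1 := by
      have := hM.hP
      omega
    exact_mod_cast this
  have h2 : (univ.filter fun q : V ⊕ ((Fin P × V) ⊕ (Fin P × V)) => ∃ b, (b, v) ∈ qT S N q) ⊆
      (nb G v).disjSum
        (((univ : Finset (Fin P)).biUnion (fun b => (nb S (N b v)).image fun y => (b, y))).disjSum
          ((univ : Finset (Fin P)) ×ˢ (nb S v))) := by
    intro q hq
    rw [mem_filter] at hq
    obtain ⟨_, b, hb⟩ := hq
    rcases q with x | p | p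
    · simp only [qT, mem_filter, mem_univ, true_and] at hb
      rw [inl_mem_disjSum, mem_nb]
      have h3 := (hM.NG b x (by rw [hb.1]; exact hb.2)).1
      rw [hb.1] at h3
      exact h3.symm
    · simp only [qT, mem_filter, mem_univ, true_and] at hb
      rw [inr_mem_disjSum, inl_mem_disjSum, mem_biUnion]
      refine ⟨p.1, mem_univ _, ?_⟩
      rw [mem_image]
      exact ⟨p.2, mem_nb.2 (mem_nb.1 hb.2.2).symm, rfl⟩
    · simp only [qT, mem_filter, mem_univ, true_and] at hb
      rw [inr_mem_disjSum, inr_mem_disjSum, mem_product]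
      exact ⟨mem_univ _, mem_nb.2 (mem_nb.1 hb.2).symm⟩
  have h3 := card_le_card h2
  rw [card_disjSum, card_disjSum, card_product, card_univ, Fintype.card_fin] at h3
  have h4 : (((univ : Finset (Fin P)).biUnion (fun b => (nb S (N b v)).image fun y => (b, y))).card
      : ℝ) ≤ P * d := by
    have h5 : (((univ : Finset (Fin P)).biUnion (fun b => (nb S (N b v)).image fun y => (b, y))).card
        : ℝ) ≤ ∑ b : Fin P, (((nb S (N b v)).image fun y => (b, y)).card : ℝ) := by
      exact_mod_cast card_biUnion_le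
    calc _ ≤ _ := h5
      _ ≤ ∑ b : Fin P, (d : ℝ) := by
          apply sum_le_sum
          intro b _
          refine le_trans ?_ (hdS (N b v))
          exact_mod_cast card_image_le
      _ = P * d := by rw [sum_const, card_univ, Fintype.card_fin, nsmul_eq_mul]
  have h6 : ((univ.filter fun q : V ⊕ ((Fin P × V) ⊕ (Fin P × V)) =>
      ∃ b, (b, v) ∈ qT S N q).card : ℝ) ≤ (nb G v).card +
      ((((univ : Finset (Fin P)).biUnion (fun b => (nb S (N b v)).image fun y => (b, y))).card : ℝ) +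
        P * (nb S v).card) := by exact_mod_cast h3
  have h7 : ((nb G v).card : ℝ) ≤ d := by exact_mod_cast (hM.reg v).le
  have h8 : (P : ℝ) * (nb S v).card ≤ (d + 1) * d :=
    mul_le_mul hP (hdS v) (by positivity) (by positivity)
  have h9 : (P : ℝ) * d ≤ (d + 1) * d := mul_le_mul_of_nonneg_right hP hd0
  linarith

end lemmas

/-! ## The theorem -/

theorem core (hO : Pool.Agent.Work.MP_db9399_ow.Stmt_OWN.{u}) :
    ∃ s a0 : ℝ, 0 < s ∧ 0 < a0 ∧
    ∀ a ε : ℝ, 0 < a → a ≤ a0 → a ≤ 1 / 100 → 0 < ε → ∃ (e : ℝ) (d0 : ℕ), 0 < e ∧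
    ∀ {V : Type u} [Fintype V] (G S : SimpleGraph V) (d P r : ℕ) {I : Type u} [Fintype I]
      (k : I → V → ℝ) (N : Fin P → V → V), d0 ≤ d →
      (∀ v, (d : ℝ) ^ 2 / (⌈(d : ℝ) ^ (a / 40)⌉₊ : ℝ) ≤ ((mis G (nb G v)).card : ℝ)) →
      Mat G S d P r a N → Pool.Agent.Work.MP_db9399_cg.Tst k d a e → (∀ i, |∑ x, k i x| ≤ e) →
      ∃ c : V → Fin P, Pool.Agent.Work.MP_db9399_cg.Own G S d P r a s N c ∧
        ∀ i, ∑ b, |∑ x ∈ tk c N b, k i x| ≤
          ∑ b, |∑ x ∈ univ.filter (fun x => N b x = x), k i x| + ε := by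
  obtain ⟨C', N0, Nn, x0, h⟩ := hO 3 1 40
  refine ⟨(C' : ℝ) / 40 + 1, 20 / ((Nn : ℝ) + 1), by positivity, by positivity, ?_⟩
  intro a ε ha ha0 ha1 hε
  obtain ⟨d0, hd0⟩ := large a ε Nn C' x0 ha
  set e : ℝ := min (ε / 4) (min 1 (3 * (ε / 1560) ^ 2)) with he
  have he0 : 0 < e := lt_min (by positivity) (lt_min one_pos (by positivity))
  have he1 : e ≤ ε / 4 := min_le_left _ _
  have he2 : e ≤ 1 := (min_le_right _ _).trans (min_le_left _ _)
  have he3 : e ≤ 3 * (ε / 1560) ^ 2 := (min_le_right _ _).trans (min_le_right _ _)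
  refine ⟨e, d0, he0, ?_⟩
  intro V _ G S d P r I _ k N hd hmis hM hk hk0
  obtain ⟨h100, hx0, h6, hlog, hN, h8192, hC', h12, h48⟩ := hd0 d hd
  set X : ℝ := (d : ℝ) ^ (a / 40) with hX
  set x : ℕ := ⌈X⌉₊ with hx
  have h100' : (100 : ℝ) ≤ d := by exact_mod_cast h100
  have hd1 : (1 : ℝ) ≤ d := by linarith
  have hdp : (0 : ℝ) < d := by linarith
  have hX0 : 0 < X := by linarith
  have hXx : X ≤ x := Nat.le_ceil X
  have hx2 : (x : ℝ) ≤ 2 * X := by
    have := (Nat.ceil_lt_add_one hX0.le).le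
    rw [← hx] at this
    linarith
  have hx6 : (6 : ℝ) ≤ x := by linarith
  have hx1 : (1 : ℝ) ≤ x := by linarith
  have hXpow : ∀ m : ℕ, X ^ m = (d : ℝ) ^ (a / 40 * m) := by
    intro m
    rw [hX, ← Real.rpow_natCast, ← Real.rpow_mul hdp.le]
  have hxpow : ∀ m : ℕ, (x : ℝ) ^ m ≤ 2 ^ m * (d : ℝ) ^ (a / 40 * m) := by
    intro m
    rw [← hXpow, ← mul_pow]
    exact pow_le_pow_left₀ (by positivity) hx2 m
  have hxpow' : ∀ m : ℕ, (d : ℝ) ^ (a / 40 * m) ≤ (x : ℝ) ^ m := by
    intro m
    rw [← hXpow]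
    exact pow_le_pow_left₀ hX0.le hXx m
  -- the degree of S
  have hr1 : (10 : ℝ) ≤ r := by
    have h1 : (d : ℝ) ^ (1 / 2 : ℝ) ≤ (d : ℝ) ^ (1 - a) :=
      Real.rpow_le_rpow_of_exponent_le hd1 (by linarith)
    have h2 : (10 : ℝ) ≤ (d : ℝ) ^ (1 / 2 : ℝ) := by
      rw [← Real.sqrt_eq_rpow]
      apply Real.le_sqrt_of_sq_le
      linarith
    linarith [hM.rlo]
  have hd3 : (d : ℝ) ^ (1 - a / 3) * 8192 * (d : ℝ) ^ (a / 40 * 13) ≤ d := by
    calc (d : ℝ) ^ (1 - a / 3) * 8192 * (d : ℝ) ^ (a / 40 * 13)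
        ≤ (d : ℝ) ^ (1 - a / 3) * (d : ℝ) ^ (a / 120) * (d : ℝ) ^ (a / 40 * 13) := by
          apply mul_le_mul_of_nonneg_right _ (by positivity)
          exact mul_le_mul_of_nonneg_left h8192 (by positivity)
      _ = (d : ℝ) ^ (1 : ℝ) := by
          rw [← Real.rpow_add hdp, ← Real.rpow_add hdp]
          congr 1
          ring
      _ = d := Real.rpow_one _
  have hrx : (r : ℝ) * (x : ℝ) ^ 13 ≤ d := by
    calc (r : ℝ) * (x : ℝ) ^ 13 ≤ (d : ℝ) ^ (1 - a / 3) * (2 ^ 13 * (d : ℝ) ^ (a / 40 * (13 : ℕ))) :=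
          mul_le_mul hM.rhi (hxpow 13) (by positivity) (by positivity)
      _ = (d : ℝ) ^ (1 - a / 3) * 8192 * (d : ℝ) ^ (a / 40 * 13) := by
          norm_num
          ring
      _ ≤ d := hd3
  have hrd : (r : ℝ) + 1 ≤ d := by
    have h1 : (1 : ℝ) ≤ (x : ℝ) ^ 13 := one_le_pow₀ hx1
    have h2 : (6 : ℝ) ≤ (x : ℝ) ^ 13 := hx6.trans (le_self_pow₀ hx1 (by norm_num))
    nlinarith
  have hP : P + r = d + 1 := hM.hP
  have hPd : P ≤ d := by
    have : 1 ≤ r := by
      have : (1 : ℝ) ≤ r := by linarith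
      exact_mod_cast this
    omega
  have hPd' : (P : ℝ) ≤ d := by exact_mod_cast hPd
  have hPr : (P : ℝ) = d + 1 - r := by
    have : (P : ℝ) + r = d + 1 := by exact_mod_cast hP
    linarith
  -- windows
  set w : ℝ := sx d a with hw
  have hwX : w = Real.exp (X ^ 2) := by
    rw [hw, hXpow]
    unfold Pool.Agent.Work.MP_db9399_cg.sx
    congr 2
    push_cast
    ring
  have hw1 : 1 ≤ w := by
    rw [hwX]
    exact Real.one_le_exp (by positivity)
  have hwin : 5 * (w * (d : ℝ) ^ 2) ≤ Real.exp ((x : ℝ) ^ 3) := by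
    have h1 : Real.exp (X ^ 2 + 3 * X) ≤ Real.exp ((x : ℝ) ^ 3) := by
      apply Real.exp_le_exp.2
      have h2 : X ^ 3 ≤ (x : ℝ) ^ 3 := pow_le_pow_left₀ hX0.le hXx 3
      nlinarith
    have h3 : 5 * (d : ℝ) ^ 2 ≤ Real.exp (3 * X) := by
      have h4 : (d : ℝ) ≤ Real.exp X := by
        rw [← Real.log_le_iff_le_exp hdp]
        exact hlog
      have h5 : (d : ℝ) ^ 3 ≤ Real.exp (3 * X) := by
        have : Real.exp (3 * X) = Real.exp X ^ 3 := by
          rw [← Real.exp_nat_mul]
          norm_num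
        rw [this]
        exact pow_le_pow_left₀ hdp.le h4 3
      nlinarith
    calc 5 * (w * (d : ℝ) ^ 2) = w * (5 * (d : ℝ) ^ 2) := by ring
      _ ≤ Real.exp (X ^ 2) * Real.exp (3 * X) := by
          rw [hwX]
          exact mul_le_mul_of_nonneg_left h3 (Real.exp_pos _).le
      _ = Real.exp (X ^ 2 + 3 * X) := by rw [Real.exp_add]
      _ ≤ _ := h1
  have hwin1 : w + w * d + d * d ≤ Real.exp ((x : ℝ) ^ 3) := by
    refine le_trans ?_ hwin
    have h1 : (1 : ℝ) ≤ d ^ 2 := one_le_pow₀ hd1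
    have h2 : w ≤ w * (d : ℝ) ^ 2 := le_mul_of_one_le_right (by linarith) h1
    have h3 : w * d ≤ w * (d : ℝ) ^ 2 := mul_le_mul_of_nonneg_left (by nlinarith) (by linarith)
    have h4 : (d : ℝ) * d ≤ w * (d : ℝ) ^ 2 := by nlinarith
    linarith
  have hwin2 : (d : ℝ) + 2 * ((d + 1) * d) ≤ Real.exp ((x : ℝ) ^ 3) := by
    refine le_trans ?_ hwin
    have h1 : (d : ℝ) ^ 2 ≤ w * (d : ℝ) ^ 2 := le_mul_of_one_le_left (by positivity) hw1
    nlinarith
  -- the tests
  have hksum : ∀ i (b : Fin P), ∑ v, |k i (N b v)| = ∑ v, |k i v| :=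
    fun i b => sum_pm hM b (fun v => |k i v|)
  have hSig : Sig ((x : ℝ) ^ 40 / d) (Real.exp ((x : ℝ) ^ 3)) (sT G S k) (gT S r k N)
      (fun j => eT (V := V) (I := I) d r e j / d) := by
    have hx40 : (1 : ℝ) ≤ (x : ℝ) ^ 40 := one_le_pow₀ hx1
    refine ⟨fun j b v hj => gT_sup hM j b v hj, ?_, ?_, ?_, ?_, ?_, ?_⟩
    · intro j b v
      rcases j with i | y
      · rw [abs_gl]
        have h1 := hk.sup i (N b v)
        have h2 : e / (d : ℝ) ≤ (x : ℝ) ^ 40 / d :=
          div_le_div_of_nonneg_right (he2.trans hx40) hdp.le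
        have h3 := abs_nonneg (k i (N b v))
        linarith
      · rw [abs_of_nonneg (gr_nonneg y b v)]
        refine (gr_le y b v).trans ?_
        rw [div_le_div_iff₀ (by positivity) hdp, one_mul]
        have h1 : (d : ℝ) ^ a ≤ (x : ℝ) ^ 40 := by
          have := hxpow' 40
          have h2 : a / 40 * ((40 : ℕ) : ℝ) = a := by push_cast; ring
          rw [h2] at this
          exact this
        calc (d : ℝ) = (d : ℝ) ^ a * (d : ℝ) ^ (1 - a) := by
              rw [← Real.rpow_add hdp]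
              conv_lhs => rw [← Real.rpow_one (d : ℝ)]
              congr 1
              ring
          _ ≤ (x : ℝ) ^ 40 * ((r : ℝ) + 1) :=
              mul_le_mul h1 (by linarith [hM.rlo]) (by positivity) (by positivity)
    · intro j b
      rcases j with i | y
      · simp_rw [abs_gl]
        rw [← mul_sum, hksum]
        have := hk.l1 i
        linarith
      · exact sum_gr_le hM y b
    · intro j b
      rcases j with i | y
      · simp_rw [sq_gl]
        rw [← mul_sum, sum_pm hM b (fun v => k i v ^ 2)]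
        have h1 : ∑ v, k i v ^ 2 ≤ e / d * 3 := by
          calc ∑ v, k i v ^ 2 ≤ ∑ v, e / d * |k i v| := by
                apply sum_le_sum
                intro v _
                rw [← sq_abs, sq]
                exact mul_le_mul_of_nonneg_right (hk.sup i v) (abs_nonneg _)
            _ = e / d * ∑ v, |k i v| := by rw [mul_sum]
            _ ≤ e / d * 3 := mul_le_mul_of_nonneg_left (hk.l1 i) (by positivity)
        calc 1 / 9 * ∑ v, k i v ^ 2 ≤ 1 / 9 * (e / d * 3) :=
              mul_le_mul_of_nonneg_left h1 (by norm_num)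
          _ = eT (V := V) (I := I) d r e (Sum.inl i) / d := by
              simp only [eT]
              ring
      · have h1 : ∀ v, gT (I := I) S r k N (Sum.inr y) b v ^ 2 ≤
            1 / ((r : ℝ) + 1) * |gT (I := I) S r k N (Sum.inr y) b v| := by
          intro v
          rw [abs_of_nonneg (gr_nonneg y b v), sq]
          exact mul_le_mul_of_nonneg_right (gr_le y b v) (gr_nonneg y b v)
        calc ∑ v, gT (I := I) S r k N (Sum.inr y) b v ^ 2
            ≤ ∑ v, 1 / ((r : ℝ) + 1) * |gT (I := I) S r k N (Sum.inr y) b v| :=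
              sum_le_sum fun v _ => h1 v
          _ = 1 / ((r : ℝ) + 1) * ∑ v, |gT (I := I) S r k N (Sum.inr y) b v| := by rw [mul_sum]
          _ ≤ 1 / ((r : ℝ) + 1) * 1 := mul_le_mul_of_nonneg_left (sum_gr_le hM y b) (by positivity)
          _ = eT (V := V) (I := I) d r e (Sum.inr y) / d := by
              simp only [eT]
              field_simp
    · intro j
      rcases j with i | y
      · simp only [eT]
        positivity
      · simp only [eT]
        positivity
    · intro j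
      exact (sT_card hM (by linarith) hk.supp hrd j).trans hwin1
    · intro v
      refine (sT_mul hM (by linarith) hk.mult hrd v).trans ?_
      linarith [mul_comm w (d : ℝ)]
  have hUpt : Upt ((d : ℝ) * (x : ℝ) ^ 40) (Real.exp ((x : ℝ) ^ 3)) (qT S N) := by
    constructor
    · intro q
      refine (qT_card hM hrd q).trans ?_
      have h1 : (2 : ℝ) ≤ (x : ℝ) ^ 40 :=
        (show (2 : ℝ) ≤ x by linarith).trans (le_self_pow₀ hx1 (by norm_num))
      nlinarith
    · intro v
      exact (qT_mul hM hrd v).trans hwin2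
  -- apply OWN
  obtain ⟨c, hc1, _, hO1, hO1', hO2⟩ := h G d x P (I ⊕ V) (V ⊕ ((Fin P × V) ⊕ (Fin P × V)))
    (sT G S k) (gT S r k N) (eT d r e) (qT S N) (fun _ => ∅)
    (by
      have : (x0 : ℝ) ≤ x := hx0.trans hXx
      exact_mod_cast this)
    (hlog.trans hXx)
    (by
      have h1 : (x : ℝ) ^ Nn ≤ d := by
        calc (x : ℝ) ^ Nn ≤ 2 ^ Nn * (d : ℝ) ^ (a / 40 * Nn) := hxpow Nn
          _ ≤ (d : ℝ) ^ (1 / 2 : ℝ) * (d : ℝ) ^ (1 / 2 : ℝ) := by
              apply mul_le_mul hN _ (by positivity) (by positivity)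
              apply Real.rpow_le_rpow_of_exponent_le hd1
              have h2 : a * ((Nn : ℝ) + 1) ≤ 20 := by
                rw [le_div_iff₀ (by positivity)] at ha0
                exact ha0
              nlinarith
          _ = d := by
              rw [← Real.rpow_add hdp]
              norm_num
      exact_mod_cast h1)
    (by omega)
    (by
      rw [hPr]
      have h1 : (r : ℝ) ≤ d / (x : ℝ) ^ (3 + 2 * 1 + 8) := by
        rw [le_div_iff₀ (by positivity)]
        exact hrx
      linarith)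
    (by
      intro v
      have h1 : ((nb G v).card : ℝ) = d := by exact_mod_cast hM.reg v
      rw [h1, sub_self, abs_zero]
      positivity)
    (by
      intro v
      rw [pow_one]
      exact hmis v)
    hSig hUpt (by
      intro v
      simp only [card_empty, Nat.cast_zero]
      positivity)
  set T0 : ℝ := (d : ℝ) ^ (((C' : ℝ) / 40 + 1) * a) with hT0
  have hxC : (x : ℝ) ^ C' + 2 ≤ T0 := by
    have h1 := hxpow C'
    have h2 : (1 : ℝ) ≤ (d : ℝ) ^ (a / 40 * C') :=
      Real.one_le_rpow hd1 (by positivity)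
    calc (x : ℝ) ^ C' + 2 ≤ 2 ^ C' * (d : ℝ) ^ (a / 40 * C') + 2 * (d : ℝ) ^ (a / 40 * C') := by
          linarith
      _ = (2 ^ C' + 2) * (d : ℝ) ^ (a / 40 * C') := by ring
      _ ≤ (d : ℝ) ^ a * (d : ℝ) ^ (a / 40 * C') :=
          mul_le_mul_of_nonneg_right hC' (by positivity)
      _ = T0 := by
          rw [← Real.rpow_add hdp, hT0]
          congr 1
          ring
  have hown : ∀ x' : V, ((univ.filter fun b => N b x' ≠ x' ∧ c (N b x') = b).card : ℝ) ≤
      (x : ℝ) ^ C' := by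
    intro x'
    refine le_trans ?_ (hO2 (Sum.inl x'))
    have : (univ.filter fun b => N b x' ≠ x' ∧ c (N b x') = b).card ≤
        ((qT S N (Sum.inl x')).filter (fun y => c y.2 = y.1)).card := by
      apply card_le_card_of_injOn (fun b => (b, N b x'))
      · intro b hb
        simp only [mem_coe, mem_filter, mem_univ, true_and, qT] at hb ⊢
        exact ⟨hb.1, hb.2⟩
      · intro b _ b' _ hbb
        exact (Prod.mk.inj hbb).1
    exact_mod_cast this
  refine ⟨c, ⟨hc1, ?_, ?_, ?_, ?_⟩, ?_⟩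
  · -- t1
    intro x'
    have h1 : ((univ.filter fun b => x' ∈ tk c N b).card : ℝ) ≤
        2 + ((univ.filter fun b => N b x' ≠ x' ∧ c (N b x') = b).card : ℝ) := by
      exact_mod_cast tk_card_le hM c x'
    have h2 := hown x'
    linarith
  · -- t2
    intro b y
    have h1 : ((nb S y).filter fun x => x ∈ tk c N b) ⊆ ((nb S y).filter fun x => N b x = x) ∪
        ((nb S y).filter fun x => N b x ≠ x ∧ c (N b x) = b) := by
      intro z hz
      simp only [tk, mem_filter, mem_univ, true_and] at hz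
      simp only [mem_union, mem_filter]
      by_cases h2 : N b z = z
      · exact Or.inl ⟨hz.1, h2⟩
      · rcases hz.2.2 with h3 | h3
        · exact absurd h3 h2
        · exact Or.inr ⟨hz.1, h2, h3⟩
    have h2 : (((nb S y).filter fun x => N b x ≠ x ∧ c (N b x) = b).card : ℝ) ≤
        (x : ℝ) ^ C' := by
      refine le_trans ?_ (hO2 (Sum.inr (Sum.inl (b, y))))
      have : ((nb S y).filter fun x => N b x ≠ x ∧ c (N b x) = b).card ≤
          ((qT S N (Sum.inr (Sum.inl (b, y)))).filter (fun y => c y.2 = y.1)).card := by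
        apply card_le_card_of_injOn (fun z => (b, N b z))
        · intro z hz
          simp only [mem_coe, mem_filter, mem_univ, true_and, qT] at hz ⊢
          rw [hM.NN]
          exact ⟨⟨fun h => hz.2.1 h.symm, hz.1⟩, hz.2.2⟩
        · intro z _ z' _ hzz
          exact N_inj hM b (Prod.mk.inj hzz).2
      exact_mod_cast this
    have h3 : ((((nb S y).filter fun x => x ∈ tk c N b).card : ℕ) : ℝ) ≤
        ((nb S y).filter fun x => N b x = x).card +
          ((nb S y).filter fun x => N b x ≠ x ∧ c (N b x) = b).card := by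
      exact_mod_cast (card_le_card h1).trans (card_union_le _ _)
    have h4 := hM.ms b y
    have h5 : sp d a ≤ T0 := by
      rw [hT0]
      unfold Pool.Agent.Work.MP_db9399_cg.sp
      apply Real.rpow_le_rpow_of_exponent_le hd1
      have : 0 ≤ (C' : ℝ) / 40 * a := by positivity
      nlinarith
    linarith
  · -- ow
    intro b y
    have h2 : (((nb S y).filter fun x => c x = b).card : ℝ) ≤ (x : ℝ) ^ C' := by
      refine le_trans ?_ (hO2 (Sum.inr (Sum.inr (b, y))))
      have : ((nb S y).filter fun x => c x = b).card ≤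
          ((qT S N (Sum.inr (Sum.inr (b, y)))).filter (fun y => c y.2 = y.1)).card := by
        apply card_le_card_of_injOn (fun z => (b, z))
        · intro z hz
          simp only [mem_coe, mem_filter, mem_univ, true_and, qT] at hz ⊢
          exact ⟨hz.1, hz.2⟩
        · intro z _ z' _ hzz
          exact (Prod.mk.inj hzz).2
      exact_mod_cast this
    linarith
  · -- av
    intro y
    have h1 : ∑ x' ∈ nb S y, ((univ.filter fun b => x' ∈ tk c N b).card : ℝ) ≤
        ∑ x' ∈ nb S y, (2 + ((univ.filter fun b => N b x' ≠ x' ∧ c (N b x') = b).card : ℝ)) := by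
      apply sum_le_sum
      intro x' _
      exact_mod_cast tk_card_le hM c x'
    rw [sum_add_distrib, sum_const, nsmul_eq_mul, sum_own (I := I) (k := k) hM c y] at h1
    have h2 := hO1' (Sum.inr y)
    have h3 : 1 / (d : ℝ) * ∑ b : Fin P, ∑ v, |gT (I := I) S r k N (Sum.inr y) b v| ≤ 1 := by
      have h4 : ∑ b : Fin P, ∑ v, |gT (I := I) S r k N (Sum.inr y) b v| ≤ P := by
        calc ∑ b : Fin P, ∑ v, |gT (I := I) S r k N (Sum.inr y) b v| ≤ ∑ _b : Fin P, (1 : ℝ) :=
              sum_le_sum fun b _ => sum_gr_le hM y b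
          _ = P := by simp
      rw [one_div, inv_mul_le_iff₀ hdp, mul_one]
      exact h4.trans hPd'
    have h5 : 1 / (x : ℝ) ≤ 1 / 6 := one_div_le_one_div_of_le (by norm_num) hx6
    have h6 : ((nb S y).card : ℝ) ≤ (r : ℝ) + 1 := by exact_mod_cast hM.hi y
    have h7 : ((r : ℝ) + 1) * ∑ v, |gT (I := I) S r k N (Sum.inr y) (c v) v| ≤
        ((r : ℝ) + 1) * (7 / 6) := mul_le_mul_of_nonneg_left (by linarith) (by positivity)
    linarith
  · -- the sums
    intro i
    have h1 : ∀ b, |∑ x ∈ tk c N b, k i x| ≤ |∑ x ∈ univ.filter (fun x => N b x = x), k i x| +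
        3 * |∑ v ∈ univ.filter (fun v => c v = b), gT S r k N (Sum.inl i) b v| := by
      intro b
      rw [tk_sum hM c hc1 i b]
      refine (abs_add_le _ _).trans ?_
      rw [abs_mul, abs_of_pos (by norm_num : (0 : ℝ) < 3)]
    have h2 : ∑ b, |∑ x ∈ tk c N b, k i x| ≤
        ∑ b, |∑ x ∈ univ.filter (fun x => N b x = x), k i x| +
        3 * ∑ b, |∑ v ∈ univ.filter (fun v => c v = b), gT S r k N (Sum.inl i) b v| := by
      rw [mul_sum, ← sum_add_distrib]
      exact sum_le_sum fun b _ => h1 b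
    have h3 := hO1 (Sum.inl i)
    have h4 : ∑ b : Fin P, (|∑ v, gT S r k N (Sum.inl i) b v| +
        ∑ v ∈ univ.filter (fun v => b ∈ ((fun _ => ∅ : V → Finset (Fin P)) v)),
          |gT S r k N (Sum.inl i) b v|) ≤ 1 / 3 * (d * e + 12) := by
      calc ∑ b : Fin P, (|∑ v, gT S r k N (Sum.inl i) b v| +
            ∑ v ∈ univ.filter (fun v => b ∈ ((fun _ => ∅ : V → Finset (Fin P)) v)),
              |gT S r k N (Sum.inl i) b v|)
          ≤ ∑ b : Fin P, 1 / 3 * (e + 2 * ∑ v ∈ univ.filter (fun v => N b v = v), |k i v|) := by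
            apply sum_le_sum
            intro b _
            have h5 : ∑ v ∈ univ.filter (fun v => b ∈ ((fun _ => ∅ : V → Finset (Fin P)) v)),
                |gT S r k N (Sum.inl i) b v| = 0 := by simp
            rw [h5, add_zero, sum_gl hM i b, abs_mul, abs_of_pos (by norm_num : (0 : ℝ) < 1 / 3)]
            apply mul_le_mul_of_nonneg_left _ (by norm_num)
            refine (abs_sub _ _).trans ?_
            rw [abs_mul, abs_of_pos (by norm_num : (0 : ℝ) < 2)]
            have h6 := hk0 i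
            have h7 : |∑ v ∈ univ.filter (fun v => N b v = v), k i v| ≤
                ∑ v ∈ univ.filter (fun v => N b v = v), |k i v| := abs_sum_le_sum_abs _ _
            linarith
        _ = 1 / 3 * (P * e + 2 * ∑ b : Fin P, ∑ v ∈ univ.filter (fun v => N b v = v), |k i v|) := by
            rw [← mul_sum, sum_add_distrib, ← mul_sum]
            simp
        _ ≤ 1 / 3 * (d * e + 12) := by
            apply mul_le_mul_of_nonneg_left _ (by norm_num)
            have h8 := sum_fixed hM i (hk.l1 i)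
            have h9 : (P : ℝ) * e ≤ d * e := mul_le_mul_of_nonneg_right hPd' he0.le
            linarith
    have h5 : 1 / (d : ℝ) * (1 / 3 * (d * e + 12)) = 1 / 3 * e + 4 / d := by
      field_simp
      ring
    have h6 : 1 / (d : ℝ) * ∑ b : Fin P, (|∑ v, gT S r k N (Sum.inl i) b v| +
        ∑ v ∈ univ.filter (fun v => b ∈ ((fun _ => ∅ : V → Finset (Fin P)) v)),
          |gT S r k N (Sum.inl i) b v|) ≤ 1 / 3 * e + 4 / d := by
      rw [← h5]
      exact mul_le_mul_of_nonneg_left h4 (by positivity)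
    have h7 : Real.sqrt (eT (V := V) (I := I) d r e (Sum.inl i)) ≤ ε / 1560 := by
      simp only [eT]
      apply Real.sqrt_le_iff.2
      refine ⟨by positivity, ?_⟩
      linarith
    have h8 : 4 / (d : ℝ) ≤ ε / 12 := by
      rw [div_le_div_iff₀ hdp (by norm_num)]
      rw [div_le_iff₀ hε] at h48
      linarith
    have h9 : 1 / (x : ℝ) ≤ ε / 12 := by
      have h10 : 12 / ε ≤ x := h12.trans hXx
      rw [div_le_iff₀ hε] at h10
      rw [div_le_div_iff₀ (by positivity) (by norm_num)]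
      linarith
    linarith

theorem stmt_OWNX (hO : Pool.Agent.Work.MP_db9399_ow.Stmt_OWN.{u}) :
    Pool.Agent.Work.MP_db9399_cg.Stmt_OWN.{u} := by
  obtain ⟨s, a0, hs, ha0, h⟩ := core hO
  refine ⟨s, a0, hs, ha0, ?_⟩
  intro a δ ε ha haa ha1 hδ _ hε
  obtain ⟨e, d0, he, h⟩ := h a ε ha haa ha1 hε
  have hT : ∀ᶠ d : ℕ in Filter.atTop, 1 / δ ≤ (d : ℝ) ^ (a / 40) :=
    ((tendsto_rpow_atTop (show 0 < a / 40 by positivity)).comp
      tendsto_natCast_atTop_atTop).eventually_ge_atTop _
  obtain ⟨d1, hd1⟩ := Filter.eventually_atTop.1 hT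
  refine ⟨e, max d0 d1, he, ?_⟩
  intro V _ G S d P r I _ k N hd hmis hM hk hk0
  refine h G S d P r k N ((le_max_left _ _).trans hd) ?_ hM hk hk0
  intro v
  refine le_trans ?_ (hmis v)
  have h1 := hd1 d ((le_max_right _ _).trans hd)
  have h2 : 1 / δ ≤ (⌈(d : ℝ) ^ (a / 40)⌉₊ : ℝ) := h1.trans (Nat.le_ceil _)
  have h3 : (0 : ℝ) < (⌈(d : ℝ) ^ (a / 40)⌉₊ : ℝ) := lt_of_lt_of_le (by positivity) h2
  rw [div_le_iff₀ h3]
  rw [div_le_iff₀ hδ] at h2
  have h4 : (0 : ℝ) ≤ (d : ℝ) ^ 2 := by positivity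
  nlinarith

theorem stmt_OWNPX (hO : Pool.Agent.Work.MP_db9399_ow.Stmt_OWN.{u}) :
    Pool.Agent.Work.MP_db9399_cg.Stmt_OWNP.{u} := by
  obtain ⟨s, a0, hs, ha0, h⟩ := core hO
  refine ⟨s, a0, hs, ha0, ?_⟩
  intro a ε ha haa ha1 hε
  obtain ⟨e, d0, he, h⟩ := h a ε ha haa ha1 hε
  refine ⟨e, max d0 1, he, ?_⟩
  intro V _ G S d P r I _ k N hd hmis hM hk hk0
  refine h G S d P r k N ((le_max_left _ _).trans hd) ?_ hM hk hk0
  intro v
  refine le_trans ?_ (hmis v)
  have hd1 : (1 : ℝ) ≤ d := by exact_mod_cast (le_max_right _ _).trans hd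
  have hdp : (0 : ℝ) < d := by linarith
  have h3 : (0 : ℝ) < (d : ℝ) ^ (a / 40) := by positivity
  calc (d : ℝ) ^ 2 / (⌈(d : ℝ) ^ (a / 40)⌉₊ : ℝ) ≤ (d : ℝ) ^ 2 / (d : ℝ) ^ (a / 40) :=
        div_le_div_of_nonneg_left (by positivity) h3 (Nat.le_ceil _)
    _ = (d : ℝ) ^ (2 - a / 40) := by
        rw [Real.rpow_sub hdp]
        norm_num
    _ ≤ (d : ℝ) ^ (2 - a / 100) := by
        apply Real.rpow_le_rpow_of_exponent_le hd1
        linarith

end Pool.Agent.Work.MP_db9399_ow.helper23
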