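import Pool.Agent.Work.MP_db9399_ow.Interface

/-!
# MP_db9399, OWN: block COVB
-/

set_option autoImplicit false

namespace Pool.Agent.Work.MP_db9399_ow.helper23

open Finset
open Pool.Agent.Work.MP_db9399_ow

theorem sum_sq_geo (q : ℝ) (h0 : 0 ≤ q) (h1 : q < 1) (T : ℕ) :
    ∑ t ∈ range T, ((t : ℝ) + 1) ^ 2 * q ^ (t + 1) ≤ 2 / (1 - q) ^ 3 := by
  have hq : ‖q‖ < 1 := by rw [Real.norm_of_nonneg h0]; exact h1
  have hs := hasSum_choose_mul_geometric_of_norm_lt_one 2 hq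
  have h2 : ∑ t ∈ range T, (((t + 2).choose 2 : ℕ) : ℝ) * q ^ t ≤ 1 / (1 - q) ^ (2 + 1) :=
    sum_le_hasSum _ (fun t _ => by positivity) hs
  calc ∑ t ∈ range T, ((t : ℝ) + 1) ^ 2 * q ^ (t + 1)
      ≤ ∑ t ∈ range T, 2 * ((((t + 2).choose 2 : ℕ) : ℝ) * q ^ t) := by
        apply sum_le_sum
        intro t _
        have h3 : (((t + 2).choose 2 : ℕ) : ℝ) = ((t : ℝ) + 2) * ((t : ℝ) + 1) / 2 := by
          rw [Nat.cast_choose_two]
          push_cast
          ring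
        rw [h3, pow_succ]
        have h4 : 0 ≤ q ^ t := by positivity
        have h5 : ((t : ℝ) + 1) ^ 2 ≤ ((t : ℝ) + 2) * ((t : ℝ) + 1) := by
          have : (0 : ℝ) ≤ t := by positivity
          nlinarith
        have h6 : q ^ t * q ≤ q ^ t := by nlinarith
        calc ((t : ℝ) + 1) ^ 2 * (q ^ t * q) ≤ (((t : ℝ) + 2) * ((t : ℝ) + 1)) * q ^ t :=
              mul_le_mul h5 h6 (by positivity) (by positivity)
          _ = _ := by ring
    _ = 2 * ∑ t ∈ range T, (((t + 2).choose 2 : ℕ) : ℝ) * q ^ t := by rw [mul_sum]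
    _ ≤ 2 * (1 / (1 - q) ^ (2 + 1)) := by linarith
    _ = 2 / (1 - q) ^ 3 := by ring

theorem half_le (y : ℝ) (h0 : 0 ≤ y) (h1 : y ≤ 1) : y / 2 ≤ 1 - Real.exp (-y) := by
  have h2 : Real.exp (-y) ≤ 1 / (1 + y) := by
    rw [Real.exp_neg, ← one_div]
    apply one_div_le_one_div_of_le (by linarith)
    linarith [Real.add_one_le_exp y]
  have h3 : 1 / (1 + y) ≤ 1 - y / 2 := by
    rw [div_le_iff₀ (by linarith)]
    nlinarith
  linarith

theorem sum_bound (M T n : ℕ) (hM : 0 < M) (hT : T + 1 ≤ M) (hn : 0 < n) (hnM : n ≤ M) :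
    ∑ t ∈ range T, ((t : ℝ) + 1) ^ 2 * (1 - ((t : ℝ) + 1) / M) ^ n ≤ 16 * ((M : ℝ) / n) ^ 3 := by
  have hM' : (0 : ℝ) < M := by exact_mod_cast hM
  have hn' : (0 : ℝ) < n := by exact_mod_cast hn
  have hnM' : (n : ℝ) ≤ M := by exact_mod_cast hnM
  have hy0 : (0 : ℝ) < (n : ℝ) / M := by positivity
  have hy1 : (n : ℝ) / M ≤ 1 := by rw [div_le_one hM']; exact hnM'
  have h1 : ∑ t ∈ range T, ((t : ℝ) + 1) ^ 2 * (1 - ((t : ℝ) + 1) / M) ^ n ≤
      ∑ t ∈ range T, ((t : ℝ) + 1) ^ 2 * Real.exp (-((n : ℝ) / M)) ^ (t + 1) := by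
    apply sum_le_sum
    intro t ht
    rw [mem_range] at ht
    apply mul_le_mul_of_nonneg_left _ (by positivity)
    have ha0 : 0 ≤ 1 - ((t : ℝ) + 1) / M := by
      rw [sub_nonneg, div_le_one hM']
      have : t + 1 ≤ M := by omega
      exact_mod_cast this
    have ha1 : 1 - ((t : ℝ) + 1) / M ≤ Real.exp (-(((t : ℝ) + 1) / M)) := by
      linarith [Real.add_one_le_exp (-(((t : ℝ) + 1) / M))]
    calc (1 - ((t : ℝ) + 1) / M) ^ n ≤ Real.exp (-(((t : ℝ) + 1) / M)) ^ n :=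
          pow_le_pow_left₀ ha0 ha1 n
      _ = Real.exp (-((n : ℝ) / M)) ^ (t + 1) := by
        rw [← Real.exp_nat_mul, ← Real.exp_nat_mul]
        congr 1
        push_cast
        ring
  have h2 := sum_sq_geo (Real.exp (-((n : ℝ) / M))) (Real.exp_pos _).le
    (by rw [Real.exp_lt_one_iff]; linarith) T
  have h3 := half_le ((n : ℝ) / M) hy0.le hy1
  have h4 : 2 / (1 - Real.exp (-((n : ℝ) / M))) ^ 3 ≤ 2 / ((n : ℝ) / M / 2) ^ 3 := by
    apply div_le_div_of_nonneg_left (by norm_num) (by positivity)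
    exact pow_le_pow_left₀ (by positivity) h3 3
  calc _ ≤ _ := h1
    _ ≤ _ := h2
    _ ≤ _ := h4
    _ = 16 * ((M : ℝ) / n) ^ 3 := by
      field_simp
      norm_num

theorem stmt_COVB : Stmt_COVB := by
  intro M T n1 n2 m n hM hT hn hnM hn1 hn2
  have hM' : (0 : ℝ) < M := by exact_mod_cast hM
  have hn' : (0 : ℝ) < n := by exact_mod_cast hn
  set a : ℕ → ℝ := fun t => 1 - ((t : ℝ) + 1) / M with ha
  have ha0 : ∀ t, t < T → 0 ≤ a t := by
    intro t ht
    rw [ha]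
    change 0 ≤ 1 - ((t : ℝ) + 1) / M
    rw [sub_nonneg, div_le_one hM']
    have : t + 1 ≤ M := by omega
    exact_mod_cast this
  have ha1 : ∀ t, a t ≤ 1 := by
    intro t
    have : 0 ≤ ((t : ℝ) + 1) / M := by positivity
    simp only [ha]
    linarith
  have hanti : ∀ s t, s ≤ t → a t ≤ a s := by
    intro s t hst
    simp only [ha]
    have : ((s : ℝ) + 1) / M ≤ ((t : ℝ) + 1) / M := by
      apply div_le_div_of_nonneg_right _ hM'.le
      have : (s : ℝ) ≤ t := by exact_mod_cast hst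
      linarith
    linarith
  -- one minus power
  have hbern : ∀ t, t < T → 1 - a t ^ m ≤ m * (((t : ℝ) + 1) / M) := by
    intro t ht
    have h1 := one_add_mul_le_pow (a := -(((t : ℝ) + 1) / M)) (by
      have := ha0 t ht
      simp only [ha] at this
      linarith) m
    have h2 : (1 + -(((t : ℝ) + 1) / M)) = a t := by simp only [ha]; ring
    rw [h2] at h1
    linarith
  -- the terms
  set f : ℕ → ℕ → ℝ := fun t t' => 1 / (M : ℝ) ^ 2 * (a t ^ n1 * a t' ^ n2 * a (max t t') ^ m) -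
    (1 / (M : ℝ) * a t ^ (n1 + m)) * (1 / (M : ℝ) * a t' ^ (n2 + m)) with hf
  have hcast : ∀ t t' : ℕ, (1 - (((max t t' : ℕ) : ℝ) + 1) / M) = a (max t t') := fun t t' => rfl
  have hD : (∑ t ∈ range T, ∑ t' ∈ range T, 1 / (M : ℝ) ^ 2 * ((1 - ((t : ℝ) + 1) / M) ^ n1 *
      (1 - ((t' : ℝ) + 1) / M) ^ n2 * (1 - (((max t t' : ℕ) : ℝ) + 1) / M) ^ m)) -
      Pn M T (n1 + m) * Pn M T (n2 + m) = ∑ t ∈ range T, ∑ t' ∈ range T, f t t' := by
    unfold Pn
    rw [sum_mul_sum, ← sum_sub_distrib]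
    apply sum_congr rfl
    intro t _
    rw [← sum_sub_distrib]
  -- key estimates
  have key : ∀ x y : ℝ, ∀ k l : ℕ, 0 ≤ x → x ≤ y → y ≤ 1 → n ≤ k + m → ∀ c : ℝ, 1 - y ^ m ≤ m * c →
      0 ≤ 1 / (M : ℝ) ^ 2 * (x ^ k * y ^ l * x ^ m) -
        (1 / (M : ℝ) * x ^ (k + m)) * (1 / (M : ℝ) * y ^ (l + m)) ∧
      1 / (M : ℝ) ^ 2 * (x ^ k * y ^ l * x ^ m) -
        (1 / (M : ℝ) * x ^ (k + m)) * (1 / (M : ℝ) * y ^ (l + m)) ≤
        1 / (M : ℝ) ^ 2 * (x ^ n * (m * c)) := by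
    intro x y k l hx hxy hy hk c hc
    have hy0 : 0 ≤ y := hx.trans hxy
    have e1 : 1 / (M : ℝ) ^ 2 * (x ^ k * y ^ l * x ^ m) -
        (1 / (M : ℝ) * x ^ (k + m)) * (1 / (M : ℝ) * y ^ (l + m)) =
        1 / (M : ℝ) ^ 2 * (x ^ (k + m) * (y ^ l * (1 - y ^ m))) := by
      rw [pow_add, pow_add]
      field_simp
    have h1 : 0 ≤ 1 - y ^ m := by
      have := pow_le_one₀ (n := m) hy0 hy
      linarith
    have h2 : y ^ l ≤ 1 := pow_le_one₀ hy0 hy
    have h2' : 0 ≤ y ^ l := by positivity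
    rw [e1]
    constructor
    · positivity
    · apply mul_le_mul_of_nonneg_left _ (by positivity)
      have h3 : x ^ (k + m) ≤ x ^ n := pow_le_pow_of_le_one hx (hxy.trans hy) hk
      have h4 : y ^ l * (1 - y ^ m) ≤ m * c := by nlinarith
      exact mul_le_mul h3 h4 (by positivity) (by positivity)
  have hterm : ∀ t ∈ range T, ∀ t' ∈ range T, 0 ≤ f t t' ∧ f t t' ≤
      (if t' ≤ t then (m : ℝ) / (M : ℝ) ^ 3 * (((t : ℝ) + 1) * a t ^ n) else 0) +
      (if t ≤ t' then (m : ℝ) / (M : ℝ) ^ 3 * (((t' : ℝ) + 1) * a t' ^ n) else 0) := by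
    intro t ht t' ht'
    rw [mem_range] at ht ht'
    rcases le_total t' t with h | h
    · have hmax : max t t' = t := max_eq_left h
      have h1 := key (a t) (a t') n1 n2 (ha0 t ht) (hanti _ _ h) (ha1 t') hn1 _ (hbern t' ht')
      have e1 : f t t' = 1 / (M : ℝ) ^ 2 * (a t ^ n1 * a t' ^ n2 * a t ^ m) -
          (1 / (M : ℝ) * a t ^ (n1 + m)) * (1 / (M : ℝ) * a t' ^ (n2 + m)) := by
        simp only [hf, hmax]
      rw [e1]
      refine ⟨h1.1, h1.2.trans ?_⟩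
      rw [if_pos h]
      have h2 : 0 ≤ (if t ≤ t' then (m : ℝ) / (M : ℝ) ^ 3 * (((t' : ℝ) + 1) * a t' ^ n) else 0) := by
        split_ifs
        · have := ha0 t' ht'
          positivity
        · exact le_rfl
      have h3 : 1 / (M : ℝ) ^ 2 * (a t ^ n * (m * (((t' : ℝ) + 1) / M))) ≤
          (m : ℝ) / (M : ℝ) ^ 3 * (((t : ℝ) + 1) * a t ^ n) := by
        have e2 : 1 / (M : ℝ) ^ 2 * (a t ^ n * (m * (((t' : ℝ) + 1) / M))) =
            (m : ℝ) / (M : ℝ) ^ 3 * (((t' : ℝ) + 1) * a t ^ n) := by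
          field_simp
        rw [e2]
        apply mul_le_mul_of_nonneg_left _ (by positivity)
        apply mul_le_mul_of_nonneg_right _ (pow_nonneg (ha0 t ht) _)
        have : (t' : ℝ) ≤ t := by exact_mod_cast h
        linarith
      linarith
    · have hmax : max t t' = t' := max_eq_right h
      have h1 := key (a t') (a t) n2 n1 (ha0 t' ht') (hanti _ _ h) (ha1 t) hn2 _ (hbern t ht)
      have e1 : f t t' = 1 / (M : ℝ) ^ 2 * (a t' ^ n2 * a t ^ n1 * a t' ^ m) -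
          (1 / (M : ℝ) * a t' ^ (n2 + m)) * (1 / (M : ℝ) * a t ^ (n1 + m)) := by
        simp only [hf, hmax]
        ring
      rw [e1]
      refine ⟨h1.1, h1.2.trans ?_⟩
      rw [if_pos h]
      have h2 : 0 ≤ (if t' ≤ t then (m : ℝ) / (M : ℝ) ^ 3 * (((t : ℝ) + 1) * a t ^ n) else 0) := by
        split_ifs
        · have := ha0 t ht
          positivity
        · exact le_rfl
      have h3 : 1 / (M : ℝ) ^ 2 * (a t' ^ n * (m * (((t : ℝ) + 1) / M))) ≤
          (m : ℝ) / (M : ℝ) ^ 3 * (((t' : ℝ) + 1) * a t' ^ n) := by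
        have e2 : 1 / (M : ℝ) ^ 2 * (a t' ^ n * (m * (((t : ℝ) + 1) / M))) =
            (m : ℝ) / (M : ℝ) ^ 3 * (((t : ℝ) + 1) * a t' ^ n) := by
          field_simp
        rw [e2]
        apply mul_le_mul_of_nonneg_left _ (by positivity)
        apply mul_le_mul_of_nonneg_right _ (pow_nonneg (ha0 t' ht') _)
        have : (t : ℝ) ≤ t' := by exact_mod_cast h
        linarith
      linarith
  rw [hD]
  constructor
  · have hone : ∀ t ∈ range T, ∑ t' ∈ range T,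
        (if t' ≤ t then (m : ℝ) / (M : ℝ) ^ 3 * (((t : ℝ) + 1) * a t ^ n) else 0) ≤
        (m : ℝ) / (M : ℝ) ^ 3 * (((t : ℝ) + 1) ^ 2 * a t ^ n) := by
      intro t ht
      have h0 := ha0 t (mem_range.1 ht)
      rw [← sum_filter, sum_const, nsmul_eq_mul]
      have h1 : (((range T).filter fun t' => t' ≤ t).card : ℝ) ≤ (t : ℝ) + 1 := by
        have : ((range T).filter fun t' => t' ≤ t).card ≤ (range (t + 1)).card := by
          apply card_le_card
          intro s hs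
          rw [mem_filter] at hs
          rw [mem_range]
          omega
        rw [card_range] at this
        exact_mod_cast this
      have h2 : 0 ≤ (m : ℝ) / (M : ℝ) ^ 3 * (((t : ℝ) + 1) * a t ^ n) := by positivity
      calc (((range T).filter fun t' => t' ≤ t).card : ℝ) *
            ((m : ℝ) / (M : ℝ) ^ 3 * (((t : ℝ) + 1) * a t ^ n))
          ≤ ((t : ℝ) + 1) * ((m : ℝ) / (M : ℝ) ^ 3 * (((t : ℝ) + 1) * a t ^ n)) :=
            mul_le_mul_of_nonneg_right h1 h2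
        _ = _ := by ring
    have hS := sum_bound M T n hM hT hn hnM
    have hsum1 : ∑ t ∈ range T, ∑ t' ∈ range T,
        (if t' ≤ t then (m : ℝ) / (M : ℝ) ^ 3 * (((t : ℝ) + 1) * a t ^ n) else 0) ≤
        (m : ℝ) / (M : ℝ) ^ 3 * (16 * ((M : ℝ) / n) ^ 3) := by
      calc _ ≤ ∑ t ∈ range T, (m : ℝ) / (M : ℝ) ^ 3 * (((t : ℝ) + 1) ^ 2 * a t ^ n) :=
            sum_le_sum hone
        _ = (m : ℝ) / (M : ℝ) ^ 3 * ∑ t ∈ range T, ((t : ℝ) + 1) ^ 2 * a t ^ n := by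
            rw [mul_sum]
        _ ≤ _ := mul_le_mul_of_nonneg_left hS (by positivity)
    calc ∑ t ∈ range T, ∑ t' ∈ range T, f t t'
        ≤ ∑ t ∈ range T, ∑ t' ∈ range T,
          ((if t' ≤ t then (m : ℝ) / (M : ℝ) ^ 3 * (((t : ℝ) + 1) * a t ^ n) else 0) +
          (if t ≤ t' then (m : ℝ) / (M : ℝ) ^ 3 * (((t' : ℝ) + 1) * a t' ^ n) else 0)) :=
          sum_le_sum fun t ht => sum_le_sum fun t' ht' => (hterm t ht t' ht').2
      _ = (∑ t ∈ range T, ∑ t' ∈ range T,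
            (if t' ≤ t then (m : ℝ) / (M : ℝ) ^ 3 * (((t : ℝ) + 1) * a t ^ n) else 0)) +
          ∑ t ∈ range T, ∑ t' ∈ range T,
            (if t ≤ t' then (m : ℝ) / (M : ℝ) ^ 3 * (((t' : ℝ) + 1) * a t' ^ n) else 0) := by
          rw [← sum_add_distrib]
          apply sum_congr rfl
          intro t _
          rw [sum_add_distrib]
      _ = (∑ t ∈ range T, ∑ t' ∈ range T,
            (if t' ≤ t then (m : ℝ) / (M : ℝ) ^ 3 * (((t : ℝ) + 1) * a t ^ n) else 0)) +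
          ∑ t' ∈ range T, ∑ t ∈ range T,
            (if t ≤ t' then (m : ℝ) / (M : ℝ) ^ 3 * (((t' : ℝ) + 1) * a t' ^ n) else 0) := by
          congr 1
          exact sum_comm
      _ ≤ (m : ℝ) / (M : ℝ) ^ 3 * (16 * ((M : ℝ) / n) ^ 3) +
          (m : ℝ) / (M : ℝ) ^ 3 * (16 * ((M : ℝ) / n) ^ 3) := add_le_add hsum1 hsum1
      _ = 32 * m / (n : ℝ) ^ 3 := by
          field_simp
          ring
  · exact sum_nonneg fun t ht => sum_nonneg fun t' ht' => (hterm t ht t' ht').1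

end Pool.Agent.Work.MP_db9399_ow.helper23
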